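import Mathlib
import Pool.Agent.H632R3.Dih

set_option autoImplicit false

/-!
# Short words in a group with an abelian subgroup of small index

Let `A` be an abelian subgroup of index `r` of the finite group `G`.  The words of length at most
`T` in `k` given elements represent at most `r * binom (k r + T) T` elements of `G`: by the
Reidemeister-Schreier rewriting the product is determined by the final coset and by the multiset of
the pairs (letter, coset).
-/

namespace Pool.Agent.W838.RC

open Finset

noncomputable section

variable {G : Type} [Group G] {k : ℕ} (A : Subgroup G) (Z : Fin k → G)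

/-- representative of a coset -/
def rep (c : G ⧸ A) : G := Quotient.out c

theorem rep_mk (c : G ⧸ A) : (QuotientGroup.mk (rep A c) : G ⧸ A) = c := Quotient.out_eq' c

/-- the Schreier element of a pair -/
def sch (p : Fin k × (G ⧸ A)) : A :=
  ⟨(rep A (Z p.1 • p.2))⁻¹ * (Z p.1 * rep A p.2), by
    rw [← QuotientGroup.eq, rep_mk]
    conv_lhs => rw [← rep_mk A p.2]
    rfl⟩

/-- the coset after reading the word `l` -/
def cos : List (Fin k) → G ⧸ A
  | [] => QuotientGroup.mk 1
  | i :: l => Z i • cos l

/-- the list of pairs of the word `l` -/
def enc : List (Fin k) → List (Fin k × (G ⧸ A))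
  | [] => []
  | i :: l => (i, cos A Z l) :: enc l

theorem enc_length (l : List (Fin k)) : (enc A Z l).length = l.length := by
  induction l with
  | nil => rfl
  | cons i l ih => simp [enc, ih]

theorem prod_eq (l : List (Fin k)) :
    (l.map Z).prod * rep A (QuotientGroup.mk 1) =
      rep A (cos A Z l) * (((enc A Z l).map (sch A Z)).prod : A) := by
  induction l with
  | nil => simp [enc, cos]
  | cons i l ih =>
    simp only [List.map_cons, List.prod_cons, enc, cos]
    rw [mul_assoc, ih, Subgroup.coe_mul]
    simp only [sch]
    group

variable (hA : ∀ x ∈ A, ∀ y ∈ A, x * y = y * x)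

/-- the commutative group structure of `A` -/
@[reducible] def cg : CommGroup A :=
  { (inferInstance : Group A) with
    mul_comm := fun x y => Subtype.ext (hA x x.2 y y.2) }

/-- padded Schreier elements -/
def fo : Option (Fin k × (G ⧸ A)) → A
  | none => 1
  | some p => sch A Z p

/-- the element described by a coset and a padded multiset of pairs -/
def dec (T : ℕ) (p : (G ⧸ A) × Sym (Option (Fin k × (G ⧸ A))) T) : G :=
  letI := cg A hA
  rep A p.1 * ((p.2.1.map (fo A Z)).prod : A) * (rep A (QuotientGroup.mk 1))⁻¹

variable [Fintype G]

/-- the elements reachable in at most `T` steps -/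
def reach (T : ℕ) : Finset G := (Set.toFinite (Set.range (dec A Z hA T))).toFinset

theorem mem_reach (T T' : ℕ) (h : T' ≤ T) (w : Fin T' → Fin k) :
    (List.ofFn fun j => Z (w j)).prod ∈ reach A Z hA T := by
  have h1 : (List.ofFn fun j => Z (w j)) = (List.ofFn w).map Z := by
    rw [List.map_ofFn]; rfl
  rw [h1]
  have h2 := prod_eq A Z (List.ofFn w)
  have hc : (enc A Z (List.ofFn w)).length = T' := by rw [enc_length, List.length_ofFn]
  unfold reach
  rw [Set.Finite.mem_toFinset]
  refine ⟨(cos A Z (List.ofFn w),
    ⟨((enc A Z (List.ofFn w) : Multiset _).map some) + Multiset.replicate (T - T') none, ?_⟩), ?_⟩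
  · rw [Multiset.card_add, Multiset.card_map, Multiset.card_replicate, Multiset.coe_card, hc]
    omega
  · unfold dec
    let _ := cg A hA
    have e3 : (((((enc A Z (List.ofFn w) : List _) : Multiset _).map some) +
        Multiset.replicate (T - T') none).map (fo A Z)).prod =
        ((enc A Z (List.ofFn w)).map (sch A Z)).prod := by
      rw [Multiset.map_add, Multiset.prod_add, Multiset.map_map, Multiset.map_replicate,
        Multiset.prod_replicate]
      have e1 : (fo A Z ∘ some) = sch A Z := rfl
      have e2 : fo A Z none = 1 := rfl
      rw [e1, e2, one_pow, mul_one, Multiset.map_coe, Multiset.prod_coe]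
    dsimp only
    rw [e3, ← h2, mul_inv_cancel_right]

theorem card_sym (α : Type) [Finite α] (T : ℕ) :
    Nat.card (Sym α T) = (Nat.card α + T - 1).choose T := by
  classical
  have : Fintype α := Fintype.ofFinite _
  rw [Nat.card_eq_fintype_card, Nat.card_eq_fintype_card, Sym.card_sym_eq_choose]

theorem finite_sym (α : Type) [Finite α] (T : ℕ) : Finite (Sym α T) := by
  classical
  have : Fintype α := Fintype.ofFinite _
  infer_instance

theorem reach_card (T : ℕ) :
    (reach A Z hA T).card ≤ A.index * (k * A.index + T).choose T := by
  have hfin : Finite (Sym (Option (Fin k × (G ⧸ A))) T) := finite_sym _ _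
  have h0 : (reach A Z hA T).card = Nat.card (Set.range (dec A Z hA T)) := by
    unfold reach
    rw [← Set.ncard_eq_toFinset_card]
    rfl
  rw [h0]
  refine (Finite.card_range_le _).trans ?_
  rw [Nat.card_prod, card_sym]
  have h2 : Nat.card (Option (Fin k × (G ⧸ A))) = k * A.index + 1 := by
    rw [Finite.card_option, Nat.card_prod, Nat.card_fin]; rfl
  rw [h2]
  have h3 : Nat.card (G ⧸ A) = A.index := rfl
  rw [h3]
  refine le_of_eq ?_
  congr 2
  omega

end

end Pool.Agent.W838.RC
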