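import Mathlib
import Pool.Agent.W838.RC.Schreier

set_option autoImplicit false

/-!
# Lower bound for the mixing time of walks on groups with a large abelian subgroup
-/

namespace Pool.Agent.W838.RC

open Finset Filter Topology Pool.Agent.H632R3

noncomputable section

theorem pointwise {G : Type} [Group G] [Fintype G] {k : ℕ} (A : Subgroup G)
    (hA : ∀ x ∈ A, ∀ y ∈ A, x * y = y * x) (Z : Fin k → G) {ε L κ x : ℝ}
    (hε0 : 0 < ε) (hε1 : ε < 1) (hk : 0 < k)
    (hL : L = Real.log (Nat.card G)) (hκ : κ = k / L) (hx : x = L / Real.log κ)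
    (hL0 : 0 < L) (hκe : Real.exp 1 ≤ κ) (hx4 : 4 ≤ x)
    (hE : 1 + Real.log 5 + Real.log A.index + Real.log (Real.log κ) ≤ ε / 8 * Real.log κ)
    (hr : Real.log A.index ≤ ε / 8 * L) {t : ℝ} (ht0 : 0 ≤ t) (ht : t ≤ (1 - ε) * x) :
    1 - Real.exp (-(ε ^ 2 / 16 * x)) - Real.exp (-(ε / 4 * L)) ≤ RCG.tvDist Z t := by
  have hκ1 : (1 : ℝ) < κ := lt_of_lt_of_le (by have := Real.exp_one_gt_d9; linarith) hκe
  have hκ0 : 0 < κ := by linarith
  have hlκ : 1 ≤ Real.log κ := by
    rw [← Real.log_exp 1]; exact Real.log_le_log (Real.exp_pos 1) hκe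
  have hlκ0 : 0 < Real.log κ := by linarith
  have hx0 : 0 < x := by linarith
  have hkr : (0 : ℝ) < k := by exact_mod_cast hk
  have hr1 : (1 : ℝ) ≤ A.index := by
    have : A.index ≠ 0 := Subgroup.index_ne_zero_of_finite
    exact_mod_cast Nat.one_le_iff_ne_zero.mpr this
  have hxl : x * Real.log κ = L := by rw [hx]; field_simp
  set T := ⌊(1 - ε / 2) * x⌋₊ with hT
  have hT1 : (T : ℝ) ≤ (1 - ε / 2) * x := Nat.floor_le (by
    apply mul_nonneg _ hx0.le; linarith)
  have hT2 : (1 - ε / 2) * x < T + 1 := Nat.lt_floor_add_one _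
  have hT4 : x / 4 ≤ T := by nlinarith
  have hTr : (0 : ℝ) < T := by linarith
  have hTpos : 0 < T := by exact_mod_cast hTr
  have hd := RCG.dist_lower hk Z ht0 T (reach A Z hA T) (mem_reach A Z hA T)
  -- the tail
  have hlam : (0 : ℝ) ≤ ε / 4 := by positivity
  have htail := RCG.pois_tail ht0 hlam T
  have hexp : Real.exp (ε / 4) - 1 ≤ ε / 4 + (ε / 4) ^ 2 := by
    have := Real.abs_exp_sub_one_sub_id_le (x := ε / 4) (by rw [abs_of_nonneg hlam]; linarith)
    have := (abs_le.mp this).2
    linarith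
  have htail2 : -(ε / 4 * ((T : ℝ) + 1)) + t * (Real.exp (ε / 4) - 1) ≤ -(ε ^ 2 / 16 * x) := by
    have e0 : 0 ≤ Real.exp (ε / 4) - 1 := by
      have := Real.add_one_le_exp (ε / 4); linarith
    have e1 : t * (Real.exp (ε / 4) - 1) ≤ ((1 - ε) * x) * (ε / 4 + (ε / 4) ^ 2) :=
      mul_le_mul ht hexp e0 (ht0.trans ht)
    have e2 : ε / 4 * ((1 - ε / 2) * x) ≤ ε / 4 * ((T : ℝ) + 1) :=
      mul_le_mul_of_nonneg_left hT2.le hlam
    have e3 : 0 ≤ ε ^ 3 * x := by positivity
    nlinarith
  have htail3 := Real.exp_le_exp.mpr htail2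
  -- the cardinality
  have hN0 : (0 : ℝ) < Fintype.card G := by exact_mod_cast Fintype.card_pos
  have hcard : ((reach A Z hA T).card : ℝ) / (Fintype.card G : ℝ) ≤ Real.exp (-(ε / 4 * L)) := by
    rw [div_le_iff₀ hN0]
    have e1 : ((reach A Z hA T).card : ℝ) ≤
        (A.index : ℝ) * (((k * A.index + T).choose T : ℕ) : ℝ) := by
      exact_mod_cast reach_card A Z hA T
    have e2 : (((k * A.index + T).choose T : ℕ) : ℝ) ≤
        (Real.exp 1 * (((k * A.index : ℕ) : ℝ) / T + 1)) ^ T := Dih.choose_le hTpos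
    have e3 : Real.exp 1 * (((k * A.index : ℕ) : ℝ) / T + 1) ≤
        Real.exp (1 + Real.log 5 + Real.log κ + Real.log A.index + Real.log (Real.log κ)) := by
      rw [Real.exp_add, Real.exp_add, Real.exp_add, Real.exp_add, Real.exp_log (by norm_num),
        Real.exp_log hκ0, Real.exp_log (by linarith), Real.exp_log hlκ0]
      have e4 : ((k * A.index : ℕ) : ℝ) / T ≤ 4 * κ * A.index * Real.log κ := by
        rw [div_le_iff₀ hTr]
        have e5 : (k : ℝ) = κ * Real.log κ * x := by
          rw [mul_assoc, mul_comm (Real.log κ) x, hxl, hκ]; field_simp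
        push_cast
        rw [e5]
        have e6 : 0 ≤ κ * Real.log κ * A.index := by positivity
        nlinarith
      have e7 : 1 ≤ κ * A.index * Real.log κ := by
        have : 1 ≤ κ * A.index := one_le_mul_of_one_le_of_one_le hκ1.le hr1
        exact one_le_mul_of_one_le_of_one_le this hlκ
      have : Real.exp 1 * (((k * A.index : ℕ) : ℝ) / T + 1) ≤
          Real.exp 1 * (5 * (κ * A.index * Real.log κ)) :=
        mul_le_mul_of_nonneg_left (by linarith) (Real.exp_pos 1).le
      linarith
    have e8 : ((reach A Z hA T).card : ℝ) ≤ Real.exp (Real.log A.index) *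
        Real.exp (1 + Real.log 5 + Real.log κ + Real.log A.index + Real.log (Real.log κ)) ^ T := by
      rw [Real.exp_log (by linarith : (0 : ℝ) < A.index)]
      refine e1.trans (mul_le_mul_of_nonneg_left ?_ (by linarith))
      exact e2.trans (pow_le_pow_left₀ (by positivity) e3 T)
    refine e8.trans ?_
    have e9 : (Fintype.card G : ℝ) = Real.exp L := by
      rw [hL, Real.exp_log (by rw [Nat.card_eq_fintype_card]; exact hN0), Nat.card_eq_fintype_card]
    rw [e9, ← Real.exp_nat_mul, ← Real.exp_add, ← Real.exp_add]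
    apply Real.exp_le_exp.mpr
    have e10 : 0 ≤ 1 + Real.log 5 + Real.log κ + Real.log A.index + Real.log (Real.log κ) := by
      have := Real.log_nonneg hlκ
      have := Real.log_nonneg hr1
      have : 0 ≤ Real.log 5 := Real.log_nonneg (by norm_num)
      linarith
    have e11 : (T : ℝ) * (1 + Real.log 5 + Real.log κ + Real.log A.index + Real.log (Real.log κ)) ≤
        (1 - ε / 2) * x * ((1 + ε / 8) * Real.log κ) :=
      mul_le_mul hT1 (by linarith) e10 (by apply mul_nonneg _ hx0.le; linarith)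
    have e12 : (1 - ε / 2) * x * ((1 + ε / 8) * Real.log κ) =
        (1 - ε / 2) * (1 + ε / 8) * L := by rw [← hxl]; ring
    rw [e12] at e11
    have e13 : 0 ≤ ε ^ 2 / 16 * L := by positivity
    have e14 : (1 - ε / 2) * (1 + ε / 8) * L = L - 3 * ε / 8 * L - ε ^ 2 / 16 * L := by ring
    rw [e14] at e11
    linarith
  linarith

section seq

variable {G : ℕ → Type} [∀ j, Group (G j)] [∀ j, Fintype (G j)]

theorem log_log_div : Tendsto (fun y : ℝ => (1 + Real.log 5 + Real.log (Real.log y)) / Real.log y)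
    atTop (𝓝 0) := by
  have h1 : Tendsto (fun z : ℝ => (1 + Real.log 5 + Real.log z) / z) atTop (𝓝 0) := by
    have h2 : Tendsto (fun z : ℝ => (1 + Real.log 5) / z + Real.log z / z) atTop (𝓝 (0 + 0)) := by
      apply Tendsto.add
      · exact tendsto_const_nhds.div_atTop tendsto_id
      · have := Real.isLittleO_log_id_atTop.tendsto_div_nhds_zero
        simpa using this
    rw [add_zero] at h2
    refine h2.congr fun z => ?_
    rw [← add_div]
  exact h1.comp Real.tendsto_log_atTop

/-- the mixing time is at least `(1 - ε) log |G| / log (k / log |G|)`, whatever the generators -/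
theorem far (A : ∀ j, Subgroup (G j)) (hA : ∀ j, ∀ x ∈ A j, ∀ y ∈ A j, x * y = y * x)
    (k : ℕ → ℕ) (hG : Tendsto (fun j => Nat.card (G j)) atTop atTop)
    (hκ : Tendsto (fun j => (k j : ℝ) / Real.log (Nat.card (G j))) atTop atTop)
    (hkL : Tendsto (fun j => Real.log (k j) / Real.log (Nat.card (G j))) atTop (𝓝 0))
    (hr : Tendsto (fun j => Real.log (A j).index /
      Real.log ((k j : ℝ) / Real.log (Nat.card (G j)))) atTop (𝓝 0))
    {ε : ℝ} (hε0 : 0 < ε) (hε1 : ε < 1) {δ : ℝ} (hδ : 0 < δ) :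
    ∀ᶠ j in atTop, ∀ Z : Fin (k j) → G j, ∀ t : ℝ, 0 ≤ t →
      t ≤ (1 - ε) * (Real.log (Nat.card (G j)) /
        Real.log ((k j : ℝ) / Real.log (Nat.card (G j)))) → 1 - δ ≤ RCG.tvDist Z t := by
  set L : ℕ → ℝ := fun j => Real.log (Nat.card (G j)) with hL
  set κ : ℕ → ℝ := fun j => (k j : ℝ) / L j with hκd
  have hLt : Tendsto L atTop atTop :=
    Real.tendsto_log_atTop.comp (tendsto_natCast_atTop_atTop.comp hG)
  have hκt : Tendsto κ atTop atTop := hκ
  have hlκ : Tendsto (fun j => Real.log (κ j)) atTop atTop := Real.tendsto_log_atTop.comp hκt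
  have hκk : ∀ᶠ j in atTop, Real.log (κ j) ≤ Real.log (k j) := by
    filter_upwards [hLt.eventually_ge_atTop 1, hκt.eventually_ge_atTop 1] with j h1 h2
    apply Real.log_le_log (by linarith)
    exact div_le_self (Nat.cast_nonneg _) h1
  have hx : Tendsto (fun j => L j / Real.log (κ j)) atTop atTop := by
    have h1 : Tendsto (fun j => Real.log (κ j) / L j) atTop (𝓝[>] 0) := by
      rw [tendsto_nhdsWithin_iff]
      constructor
      · refine squeeze_zero' ?_ ?_ hkL
        · filter_upwards [hLt.eventually_ge_atTop 1, hlκ.eventually_ge_atTop 1] with j h1 h2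
          exact div_nonneg (zero_le_one.trans h2) (zero_le_one.trans h1)
        · filter_upwards [hLt.eventually_ge_atTop 1, hκk] with j h1 h2
          exact div_le_div_of_nonneg_right h2 (zero_le_one.trans h1)
      · filter_upwards [hLt.eventually_ge_atTop 1, hlκ.eventually_ge_atTop 1] with j h1 h2
        exact div_pos (zero_lt_one.trans_le h2) (zero_lt_one.trans_le h1)
    have h2 := h1.inv_tendsto_nhdsGT_zero
    refine h2.congr fun j => ?_
    rw [Pi.inv_apply, inv_div]
  have he1 : Tendsto (fun j => Real.exp (-(ε ^ 2 / 16 * (L j / Real.log (κ j))))) atTop (𝓝 0) :=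
    Real.tendsto_exp_neg_atTop_nhds_zero.comp (hx.const_mul_atTop (by positivity))
  have he2 : Tendsto (fun j => Real.exp (-(ε / 4 * L j))) atTop (𝓝 0) :=
    Real.tendsto_exp_neg_atTop_nhds_zero.comp (hLt.const_mul_atTop (by positivity))
  have hE : Tendsto (fun j => (1 + Real.log 5 + Real.log (Real.log (κ j))) / Real.log (κ j) +
      Real.log (A j).index / Real.log (κ j)) atTop (𝓝 (0 + 0)) :=
    (log_log_div.comp hκt).add hr
  rw [add_zero] at hE
  filter_upwards [he1.eventually_lt_const (half_pos hδ), he2.eventually_lt_const (half_pos hδ),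
    hE.eventually_lt_const (by positivity : (0 : ℝ) < ε / 8), hLt.eventually_ge_atTop 1,
    hκt.eventually_ge_atTop (Real.exp 1), hx.eventually_ge_atTop 4, hκk,
    hkL.eventually_lt_const (by positivity : (0 : ℝ) < ε / 8),
    hr.eventually_lt_const one_pos, hlκ.eventually_ge_atTop 1] with j h1 h2 h3 h4 h5 h6 h7 h8 h9
      h10 Z t ht0 ht
  have hl0 : 0 < Real.log (κ j) := by linarith
  have hk0 : 0 < k j := by
    by_contra hcon
    have h0 : k j = 0 := by omega
    have : κ j = 0 := by simp [hκd, h0]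
    have := Real.exp_pos 1
    linarith
  have hp := pointwise (A j) (hA j) Z (L := L j) (κ := κ j) (x := L j / Real.log (κ j))
    hε0 hε1 hk0 rfl rfl rfl (by linarith) h5 h6 (by
      rw [← add_div, div_lt_iff₀ hl0] at h3
      linarith) (by
      have h11 : Real.log (A j).index ≤ Real.log (κ j) := by
        have : Real.log (A j).index / Real.log (κ j) < 1 := h9
        rw [div_lt_one hl0] at this
        exact this.le
      have h12 : Real.log (k j) / L j < ε / 8 := h8
      rw [div_lt_iff₀ (by linarith)] at h12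
      linarith) ht0 ht
  linarith

end seq

end

end Pool.Agent.W838.RC
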