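import Mathlib
import Pool.Agent.W838.RC.Far

set_option autoImplicit false

/-!
# Upper bound for `t_*` for groups with small abelianisation, and the failure of cutoff at `t_*`
-/

namespace Pool.Agent.W838.RC

open Finset Filter Topology Pool.Agent.H632R3

noncomputable section

theorem entropy_ge {s : ℝ} (hs : 0 < s) :
    s * Real.exp (-s) * (-Real.log s) ≤ RCG.poissonEntropy s := by
  have hsum := RCG.entropy_summable hs.le
  have h1 : Real.negMulLog (Real.exp (-s) * s ^ 1 / ((1 : ℕ).factorial : ℝ)) ≤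
      RCG.poissonEntropy s := by
    unfold RCG.poissonEntropy
    refine hsum.le_tsum 1 fun j _ => ?_
    apply Real.negMulLog_nonneg (by positivity)
    have h2 := le_hasSum (RCG.poisson_hasSum s) j (fun i _ => by positivity)
    exact h2
  refine le_trans ?_ h1
  have h3 : Real.exp (-s) * s ^ 1 / ((1 : ℕ).factorial : ℝ) = s * Real.exp (-s) := by
    simp [mul_comm]
  rw [h3, Real.negMulLog, Real.log_mul hs.ne' (Real.exp_pos _).ne', Real.log_exp]
  have h4 : 0 < s * Real.exp (-s) := by positivity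
  nlinarith

theorem t0_le_of {k N : ℕ} {t : ℝ} (hk : 0 < k) (ht : 0 < t)
    (h : Real.log N ≤ t * Real.exp (-(t / k)) * Real.log (k / t)) : RCG.t0 k N ≤ t := by
  have hkr : (0 : ℝ) < k := by exact_mod_cast hk
  refine csInf_le ⟨0, fun t ht => ht.1⟩ ⟨ht.le, h.trans ?_⟩
  have h1 := mul_le_mul_of_nonneg_left (entropy_ge (s := t / k) (by positivity)) hkr.le
  refine le_trans (le_of_eq ?_) h1
  rw [← Real.log_inv, inv_div]
  field_simp

section seq

variable {G : ℕ → Type} [∀ j, Group (G j)] [∀ j, Fintype (G j)]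

theorem tStar_le (k : ℕ → ℕ) (hG : Tendsto (fun j => Nat.card (G j)) atTop atTop)
    (hκ : Tendsto (fun j => (k j : ℝ) / Real.log (Nat.card (G j))) atTop atTop)
    {C α : ℝ} (hC : 1 < C) (hkC : ∀ᶠ j in atTop, (k j : ℝ) ≤ Real.log (Nat.card (G j)) ^ C)
    (hα0 : 0 < α) (hα : α < 1)
    (hab : ∀ᶠ j in atTop, (Nat.card (Abelianization (G j)) : ℝ) ≤ (Nat.card (G j) : ℝ) ^ α)
    {η : ℝ} (hη0 : 0 < η) (hη1 : η ≤ 1 / C) (hη2 : η ≤ (1 - α) / 2) :
    ∀ᶠ j in atTop, RCG.tStar (G j) (k j) ≤ (1 - η) * (Real.log (Nat.card (G j)) /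
        Real.log ((k j : ℝ) / Real.log (Nat.card (G j)))) := by
  set L : ℕ → ℝ := fun j => Real.log (Nat.card (G j)) with hL
  set κ : ℕ → ℝ := fun j => (k j : ℝ) / L j with hκd
  have hLt : Tendsto L atTop atTop :=
    Real.tendsto_log_atTop.comp (tendsto_natCast_atTop_atTop.comp hG)
  have hκt : Tendsto κ atTop atTop := hκ
  have hlκ : Tendsto (fun j => Real.log (κ j)) atTop atTop := Real.tendsto_log_atTop.comp hκt
  have hη' : η < 1 := by
    have : (1 - α) / 2 < 1 := by linarith
    linarith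
  -- `exp (-1/κ)` is close to one
  have hexp : Tendsto (fun j => Real.exp (-(κ j)⁻¹)) atTop (𝓝 1) := by
    have h1 : Tendsto (fun j => -(κ j)⁻¹) atTop (𝓝 (-0)) := (tendsto_inv_atTop_zero.comp hκt).neg
    rw [neg_zero] at h1
    have := (Real.continuous_exp.tendsto 0).comp h1
    rwa [Real.exp_zero] at this
  have hq : 2 * α / (1 + α) < 1 := by rw [div_lt_one (by linarith)]; linarith
  filter_upwards [hkC, hab, hLt.eventually_ge_atTop 1, hκt.eventually_ge_atTop (Real.exp 1),
    hlκ.eventually_ge_atTop 1, hexp.eventually_const_lt hq] with j h1 h2 h3 h4 h5 h6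
  have hL0 : 0 < L j := by linarith
  have hκ0 : 0 < κ j := (Real.exp_pos 1).trans_le h4
  have hl0 : 0 < Real.log (κ j) := by linarith
  have hkpos : (0 : ℝ) < k j := by
    have : (k j : ℝ) = κ j * L j := by simp only [hκd]; field_simp
    rw [this]; positivity
  have hk0 : 0 < k j := by exact_mod_cast hkpos
  have hkκ : (k j : ℝ) = κ j * L j := by simp only [hκd]; field_simp
  have hlogk : Real.log (k j) = Real.log (κ j) + Real.log (L j) := by
    rw [hkκ, Real.log_mul hκ0.ne' hL0.ne']
  have hlogL : 0 ≤ Real.log (L j) := Real.log_nonneg h3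
  have hx0 : 0 < L j / Real.log (κ j) := by positivity
  unfold RCG.tStar
  apply max_le
  · -- the entropic time
    apply t0_le_of hk0 (by apply mul_pos _ hx0; linarith)
    have e1 : (1 - η) * (L j / Real.log (κ j)) / k j ≤ (κ j)⁻¹ := by
      rw [hkκ, div_le_iff₀ (by positivity)]
      have : (κ j)⁻¹ * (κ j * L j) = L j := by field_simp
      rw [this]
      have e2 : L j / Real.log (κ j) ≤ L j := div_le_self hL0.le h5
      nlinarith
    have e3 : Real.exp (-(κ j)⁻¹) ≤ Real.exp (-((1 - η) * (L j / Real.log (κ j)) / k j)) :=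
      Real.exp_le_exp.mpr (neg_le_neg e1)
    have e4 : Real.log (κ j) ≤ Real.log (k j / ((1 - η) * (L j / Real.log (κ j)))) := by
      apply Real.log_le_log hκ0
      rw [le_div_iff₀ (by apply mul_pos _ hx0; linarith), hkκ]
      have e2 : L j / Real.log (κ j) ≤ L j := div_le_self hL0.le h5
      have : (1 - η) * (L j / Real.log (κ j)) ≤ L j := by nlinarith
      exact mul_le_mul_of_nonneg_left this hκ0.le
    have e5 : Real.log (Nat.card (Abelianization (G j))) ≤ α * L j := by
      have hfin : Finite (Abelianization (G j)) :=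
        Finite.of_surjective _ (QuotientGroup.mk_surjective)
      have hpos : (0 : ℝ) < Nat.card (Abelianization (G j)) := by exact_mod_cast Nat.card_pos
      have := Real.log_le_log hpos h2
      rwa [Real.log_rpow (by exact_mod_cast Nat.card_pos)] at this
    refine e5.trans ?_
    have e6 : (1 - η) * (L j / Real.log (κ j)) * Real.exp (-(κ j)⁻¹) * Real.log (κ j) ≤
        (1 - η) * (L j / Real.log (κ j)) *
        Real.exp (-((1 - η) * (L j / Real.log (κ j)) / k j)) *
        Real.log (k j / ((1 - η) * (L j / Real.log (κ j)))) := by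
      have h0 : 0 ≤ (1 - η) * (L j / Real.log (κ j)) := by
        apply mul_nonneg _ hx0.le; linarith
      exact mul_le_mul (mul_le_mul_of_nonneg_left e3 h0) e4 hl0.le
        (mul_nonneg h0 (Real.exp_pos _).le)
    refine le_trans ?_ e6
    have e7 : (1 - η) * (L j / Real.log (κ j)) * Real.exp (-(κ j)⁻¹) * Real.log (κ j) =
        (1 - η) * Real.exp (-(κ j)⁻¹) * L j := by field_simp
    rw [e7]
    apply mul_le_mul_of_nonneg_right _ hL0.le
    have e8 : (1 + α) / 2 ≤ 1 - η := by linarith
    have e9 : α = (1 + α) / 2 * (2 * α / (1 + α)) := by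
      have : 1 + α ≠ 0 := by linarith
      field_simp
    rw [e9]
    exact mul_le_mul e8 h6.le (by positivity) (by linarith)
  · -- the diameter time
    have e1 : Real.log (k j) ≤ C * Real.log (L j) := by
      have := Real.log_le_log hkpos h1
      rwa [Real.log_rpow hL0] at this
    have e2 : Real.log (κ j) ≤ (1 - η) * Real.log (k j) := by
      have e3 : η * Real.log (k j) ≤ Real.log (L j) := by
        have h0 : 0 ≤ Real.log (k j) := by linarith
        calc η * Real.log (k j) ≤ 1 / C * Real.log (k j) := mul_le_mul_of_nonneg_right hη1 h0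
          _ ≤ 1 / C * (C * Real.log (L j)) := mul_le_mul_of_nonneg_left e1 (by positivity)
          _ = Real.log (L j) := by field_simp
      linarith
    have hlk : 0 < Real.log (k j) := by linarith
    have e4 : Real.logb (k j) (Nat.card (G j)) = L j / Real.log (k j) := rfl
    rw [e4, mul_div_assoc', div_le_div_iff₀ hlk hl0]
    nlinarith

/-- no cutoff at `t_*`, quantitatively and for all generators -/
theorem family (A : ∀ j, Subgroup (G j)) (hA : ∀ j, ∀ x ∈ A j, ∀ y ∈ A j, x * y = y * x)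
    (k : ℕ → ℕ) (hG : Tendsto (fun j => Nat.card (G j)) atTop atTop)
    (hκ : Tendsto (fun j => (k j : ℝ) / Real.log (Nat.card (G j))) atTop atTop)
    (hr : Tendsto (fun j => Real.log (A j).index /
      Real.log ((k j : ℝ) / Real.log (Nat.card (G j)))) atTop (𝓝 0))
    {C α : ℝ} (hkC : ∀ᶠ j in atTop, (k j : ℝ) ≤ Real.log (Nat.card (G j)) ^ C)
    (hα : α < 1)
    (hab : ∀ᶠ j in atTop, (Nat.card (Abelianization (G j)) : ℝ) ≤ (Nat.card (G j) : ℝ) ^ α) :
    ∃ ε : ℝ, 0 < ε ∧ ε < 1 ∧ ∀ δ : ℝ, 0 < δ → ∀ᶠ j in atTop, ∀ Z : Fin (k j) → G j,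
      1 - δ ≤ RCG.tvDist Z ((1 + ε) * RCG.tStar (G j) (k j)) := by
  have hLt : Tendsto (fun j => Real.log (Nat.card (G j))) atTop atTop :=
    Real.tendsto_log_atTop.comp (tendsto_natCast_atTop_atTop.comp hG)
  -- normalise the exponents
  set C' : ℝ := max C 2 with hC'
  set α' : ℝ := max α (1 / 2) with hα'
  have hC1 : 1 < C' := lt_of_lt_of_le (by norm_num) (le_max_right _ _)
  have hα0 : 0 < α' := lt_of_lt_of_le (by norm_num) (le_max_right _ _)
  have hα1 : α' < 1 := max_lt hα (by norm_num)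
  have hkC' : ∀ᶠ j in atTop, (k j : ℝ) ≤ Real.log (Nat.card (G j)) ^ C' := by
    filter_upwards [hkC, hLt.eventually_ge_atTop 1] with j h1 h2
    exact h1.trans (Real.rpow_le_rpow_of_exponent_le h2 (le_max_left _ _))
  have hab' : ∀ᶠ j in atTop,
      (Nat.card (Abelianization (G j)) : ℝ) ≤ (Nat.card (G j) : ℝ) ^ α' := by
    filter_upwards [hab, hG.eventually_ge_atTop 1] with j h1 h2
    exact h1.trans (Real.rpow_le_rpow_of_exponent_le (by exact_mod_cast h2) (le_max_left _ _))
  set η : ℝ := min (1 / C') ((1 - α') / 2) with hη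
  have hη0 : 0 < η := lt_min (by positivity) (by linarith)
  have hη1 : η ≤ 1 / C' := min_le_left _ _
  have hη2 : η ≤ (1 - α') / 2 := min_le_right _ _
  have hη3 : η < 1 := by linarith
  have hkL : Tendsto (fun j => Real.log (k j) / Real.log (Nat.card (G j))) atTop (𝓝 0) := by
    have h1 : Tendsto (fun j => C' * (Real.log (Real.log (Nat.card (G j))) /
        Real.log (Nat.card (G j)))) atTop (𝓝 (C' * 0)) := by
      apply Tendsto.const_mul
      have h2 : Tendsto (fun x : ℝ => Real.log x / x) atTop (𝓝 0) := by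
        have := Real.isLittleO_log_id_atTop.tendsto_div_nhds_zero
        simpa using this
      exact h2.comp hLt
    rw [mul_zero] at h1
    refine squeeze_zero' ?_ ?_ h1
    · filter_upwards [hLt.eventually_ge_atTop 1, hκ.eventually_ge_atTop 1] with j h2 h3
      apply div_nonneg _ (zero_le_one.trans h2)
      apply Real.log_nonneg
      rw [le_div_iff₀ (zero_lt_one.trans_le h2)] at h3
      linarith
    · filter_upwards [hkC', hLt.eventually_ge_atTop 1, hκ.eventually_ge_atTop 1] with j h2 h3 h4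
      rw [mul_div_assoc']
      apply div_le_div_of_nonneg_right _ (zero_le_one.trans h3)
      have hk : (0 : ℝ) < k j := by
        rw [le_div_iff₀ (zero_lt_one.trans_le h3)] at h4
        linarith
      have := Real.log_le_log hk h2
      rwa [Real.log_rpow (zero_lt_one.trans_le h3)] at this
  refine ⟨η, hη0, hη3, fun δ hδ => ?_⟩
  have hηη : η ^ 2 < 1 := by nlinarith
  filter_upwards [far A hA k hG hκ hkL hr (ε := η ^ 2) (by positivity) hηη hδ,
    tStar_le k hG hκ hC1 hkC' hα0 hα1 hab' hη0 hη1 hη2, hLt.eventually_ge_atTop 1,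
    (Real.tendsto_log_atTop.comp hκ).eventually_ge_atTop 1] with j h1 h2 h3 h4 Z
  have h5 : 0 ≤ RCG.tStar (G j) (k j) := (RCG.t0_nonneg _ _).trans (le_max_left _ _)
  apply h1 Z
  · apply mul_nonneg _ h5; linarith
  · have h6 : (1 + η) * RCG.tStar (G j) (k j) ≤ (1 + η) * ((1 - η) *
        (Real.log (Nat.card (G j)) / Real.log ((k j : ℝ) / Real.log (Nat.card (G j))))) :=
      mul_le_mul_of_nonneg_left h2 (by linarith)
    refine h6.trans (le_of_eq ?_)
    ring

theorem noCutoff_of (k : ℕ → ℕ)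
    (h : ∃ ε : ℝ, 0 < ε ∧ ε < 1 ∧ ∀ δ : ℝ, 0 < δ → ∀ᶠ j in atTop, ∀ Z : Fin (k j) → G j,
      1 - δ ≤ RCG.tvDist Z ((1 + ε) * RCG.tStar (G j) (k j))) :
    ¬ RCG.CutoffWhpAt G k (fun j => RCG.tStar (G j) (k j)) := by
  intro hc
  obtain ⟨ε, h0, h1, h2⟩ := h
  have h3 := (hc ε h0 h1 (1 / 2) (by norm_num)).1
  have h4 : ∀ᶠ j in atTop, RCG.prob (G j) (k j)
      (fun Z => RCG.tvDist Z ((1 + ε) * RCG.tStar (G j) (k j)) ≤ 1 / 2) = 0 := by
    filter_upwards [h2 (1 / 4) (by norm_num)] with j h5
    have : IsEmpty {Z : Fin (k j) → G j //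
        RCG.tvDist Z ((1 + ε) * RCG.tStar (G j) (k j)) ≤ 1 / 2} := by
      refine ⟨fun Z => ?_⟩
      have h6 := h5 Z.1
      have h7 := Z.2
      linarith
    unfold RCG.prob
    rw [Nat.card_of_isEmpty]
    simp
  have h5 := h3.congr' h4
  have h6 := tendsto_nhds_unique h5 tendsto_const_nhds
  norm_num at h6

end seq

end

end Pool.Agent.W838.RC
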